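import Mathlib
import Pool.Agent.MP_9e8696_an.H12.Poincare

/-!
Reverse Bochner inequality and the lower bound for the variance of a quadratic form under an
Ising measure with small operator norm.
-/

namespace Pool.Agent.MP_9e8696_an.H90

open Finset Pool.Agent.MP_9e8696_an.H12

variable {ι : Type*} [Fintype ι] [DecidableEq ι]
variable {J : ι → ι → ℝ} {d : ℝ} {p : (ι → Bool) → ℝ}

/-- Upper bound for an off-diagonal Bochner term. -/
lemma pair_le (hJ : Small J d) (hd : d ≤ 1) (hp : Gibbs J p) (g : (ι → Bool) → ℝ) {i j : ι}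
    (hij : i ≠ j) (A : ℝ) (hA : ∀ x, grad j (grad i g) x ^ 2 ≤ A) :
    ∑ x, p x * (rate J i x * grad i g x * (rate J j x * grad j g x)
      * Real.exp (J i j * sg (x i) * sg (x j))) ≤ 3 / 4 * A := by
  set W : (ι → Bool) → ℝ := fun x =>
    p x * rate J i x * rate J j x * Real.exp (J i j * sg (x i) * sg (x j)) with hW
  have hWi : ∀ x, W (fl x i) = W x := by
    intro x
    simp only [hW]
    rw [wt_fl hJ hp, mul_assoc (p x * rate J i x), mul_assoc (p x * rate J i x)]
    congr 1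
    simp only [rate, hf_fl, sg_fl_same, fl_ne x hij.symm, ← Real.exp_add]
    congr 1
    rw [hJ.symm j i]; ring
  have hWj : ∀ x, W (fl x j) = W x := by
    intro x
    simp only [hW]
    have e1 : ∀ y, p y * rate J i y * rate J j y * Real.exp (J i j * sg (y i) * sg (y j))
        = p y * rate J j y * (rate J i y * Real.exp (J i j * sg (y i) * sg (y j))) := by
      intro y; ring
    rw [e1, e1, wt_fl hJ hp]
    congr 1
    simp only [rate, hf_fl, sg_fl_same, fl_ne x hij, ← Real.exp_add]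
    congr 1
    ring
  have hW0 : ∀ x, 0 ≤ W x := fun x =>
    mul_nonneg (mul_nonneg (mul_nonneg (hp.pos x).le (rate_pos _ _).le) (rate_pos _ _).le)
      (Real.exp_pos _).le
  have e0 : ∑ x, p x * (rate J i x * grad i g x * (rate J j x * grad j g x)
      * Real.exp (J i j * sg (x i) * sg (x j)))
      = ∑ x, W x * (grad j g x * grad i g x) :=
    Finset.sum_congr rfl fun x _ => by simp only [hW]; ring
  have hc : ∀ x, grad i (grad j g) x = grad j (grad i g) x := by
    intro x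
    simp only [grad, fl_comm x i j]; ring
  rw [e0, sbp i W hWi (grad j g) g]
  have e1 : ∑ x, W x * (grad i (grad j g) x * grad i g x)
      = ∑ x, W x * (grad i g x * grad j (grad i g) x) :=
    Finset.sum_congr rfl fun x _ => by rw [hc]; ring
  rw [e1, sbp j W hWj (grad i g) (grad i g)]
  have hA0 : 0 ≤ A := (sq_nonneg _).trans (hA (fun _ => true))
  have h1 : ∑ x, W x * (grad j (grad i g) x * grad j (grad i g) x) ≤ (∑ x, W x) * A := by
    rw [Finset.sum_mul]
    refine Finset.sum_le_sum fun x _ => mul_le_mul_of_nonneg_left ?_ (hW0 x)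
    rw [← sq]; exact hA x
  have hi := rate_sq_eq hJ hp i (fun _ => 1) (fun _ => rfl)
  have hj := rate_sq_eq hJ hp j (fun _ => 1) (fun _ => rfl)
  simp only [mul_one, hp.sum] at hi hj
  have h2 : ∑ x, W x ≤ 3 := by
    have h3 : ∑ x, W x ≤ ∑ x, 3 / 2 * (p x * rate J i x ^ 2 + p x * rate J j x ^ 2) := by
      refine Finset.sum_le_sum fun x _ => ?_
      have ht : J i j * sg (x i) * sg (x j) ≤ 1 := by
        refine (le_abs_self _).trans ?_
        rw [abs_mul, abs_mul, abs_sg, abs_sg, mul_one, mul_one]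
        exact (hJ.entry i j).trans hd
      have he : Real.exp (J i j * sg (x i) * sg (x j)) ≤ 3 :=
        (Real.exp_le_exp.2 ht).trans (by have := Real.exp_one_lt_d9; linarith)
      have h4 : 0 ≤ p x * rate J i x * rate J j x :=
        mul_nonneg (mul_nonneg (hp.pos x).le (rate_pos _ _).le) (rate_pos _ _).le
      have h5 : W x ≤ p x * rate J i x * rate J j x * 3 := mul_le_mul_of_nonneg_left he h4
      have h6 : 0 ≤ p x * (rate J i x - rate J j x) ^ 2 := mul_nonneg (hp.pos x).le (sq_nonneg _)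
      nlinarith
    rw [← Finset.mul_sum, Finset.sum_add_distrib, hi, hj] at h3
    linarith
  have h7 : (∑ x, W x) * A ≤ 3 * A := mul_le_mul_of_nonneg_right h2 hA0
  linarith

omit [DecidableEq ι] in
/-- The pointwise lower bound for the correction terms. -/
lemma corr_ge (hJ : Small J d) (hd : d ≤ 1) (u : ι → ℝ) (x : ι → Bool) :
    ∑ i, ∑ j, u i * u j * (1 - Real.exp (J i j * sg (x i) * sg (x j)))
      ≤ (d + d ^ 2) * ∑ i, u i ^ 2 := by
  classical
  have h1 := (abs_le.1 (hJ.quad (fun i => sg (x i) * u i))).1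
  have e1 : ∑ i, (sg (x i) * u i) ^ 2 = ∑ i, u i ^ 2 :=
    Finset.sum_congr rfl fun i _ => by rw [mul_pow, sg_sq, one_mul]
  rw [e1] at h1
  have h2 : ∀ i j, u i * u j * (1 - Real.exp (J i j * sg (x i) * sg (x j)))
      ≤ -(J i j * (sg (x i) * u i) * (sg (x j) * u j))
        + (J i j ^ 2 * u i ^ 2 + J j i ^ 2 * u j ^ 2) / 2 := by
    intro i j
    set t := J i j * sg (x i) * sg (x j) with ht
    have habs : |t| ≤ 1 := by
      rw [ht, abs_mul, abs_mul, abs_sg, abs_sg, mul_one, mul_one]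
      exact (hJ.entry i j).trans hd
    have hexp := Real.abs_exp_sub_one_sub_id_le habs
    have ht2 : t ^ 2 = J i j ^ 2 := by rw [ht, mul_pow, mul_pow, sg_sq, sg_sq]; ring
    rw [ht2] at hexp
    have h3 : -(u i * u j * (Real.exp t - 1 - t)) ≤ |u i * u j| * J i j ^ 2 := by
      calc -(u i * u j * (Real.exp t - 1 - t)) ≤ |u i * u j * (Real.exp t - 1 - t)| :=
            neg_le_abs _
        _ = |u i * u j| * |Real.exp t - 1 - t| := abs_mul _ _
        _ ≤ |u i * u j| * J i j ^ 2 := mul_le_mul_of_nonneg_left hexp (abs_nonneg _)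
    have h4 : |u i * u j| ≤ (u i ^ 2 + u j ^ 2) / 2 := by
      rw [abs_le]; constructor <;> nlinarith [sq_nonneg (u i + u j), sq_nonneg (u i - u j)]
    have h5 : |u i * u j| * J i j ^ 2 ≤ (u i ^ 2 + u j ^ 2) / 2 * J i j ^ 2 :=
      mul_le_mul_of_nonneg_right h4 (sq_nonneg _)
    have e : J i j * (sg (x i) * u i) * (sg (x j) * u j) = u i * u j * t := by rw [ht]; ring
    rw [e, hJ.symm j i]
    nlinarith
  have h6 : ∑ i, ∑ j, J i j ^ 2 * u i ^ 2 ≤ d ^ 2 * ∑ i, u i ^ 2 := by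
    rw [Finset.mul_sum]
    refine Finset.sum_le_sum fun i _ => ?_
    rw [← Finset.sum_mul]
    exact mul_le_mul_of_nonneg_right (hJ.row i) (sq_nonneg _)
  have h7 : ∑ i, ∑ j, J j i ^ 2 * u j ^ 2 = ∑ i, ∑ j, J i j ^ 2 * u i ^ 2 := Finset.sum_comm
  calc ∑ i, ∑ j, u i * u j * (1 - Real.exp (J i j * sg (x i) * sg (x j)))
      ≤ ∑ i, ∑ j, (-(J i j * (sg (x i) * u i) * (sg (x j) * u j))
        + (J i j ^ 2 * u i ^ 2 + J j i ^ 2 * u j ^ 2) / 2) :=
        Finset.sum_le_sum fun i _ => Finset.sum_le_sum fun j _ => h2 i j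
    _ = -(∑ i, ∑ j, J i j * (sg (x i) * u i) * (sg (x j) * u j))
        + (∑ i, ∑ j, J i j ^ 2 * u i ^ 2 + ∑ i, ∑ j, J j i ^ 2 * u j ^ 2) / 2 := by
        simp only [Finset.sum_add_distrib, ← Finset.sum_div, Finset.sum_neg_distrib]
    _ ≤ (d + d ^ 2) * ∑ i, u i ^ 2 := by rw [h7]; linarith

/-- The reverse Bochner inequality. -/
lemma rev_bochner (hJ : Small J d) (hd : d ≤ 1) (hp : Gibbs J p) (g : (ι → Bool) → ℝ)
    (A : ι → ι → ℝ) (hA0 : ∀ i j, 0 ≤ A i j)
    (hA : ∀ i j, i ≠ j → ∀ x, grad j (grad i g) x ^ 2 ≤ A i j) :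
    ∑ x, p x * gen J g x ^ 2
      ≤ (1 + d + d ^ 2) * ∑ i, ∑ x, p x * grad i g x ^ 2 + 3 / 4 * ∑ i, ∑ j, A i j := by
  set u : ι → (ι → Bool) → ℝ := fun i x => rate J i x * grad i g x with hu
  have e00 : ∀ i, ∑ x, p x * grad i g x ^ 2 = ∑ x, p x * u i x ^ 2 := by
    intro i
    rw [← rate_sq_eq hJ hp i (fun x => grad i g x ^ 2) (fun x => by rw [grad_fl]; ring)]
    exact Finset.sum_congr rfl fun x _ => by simp only [hu]; ring
  have e0 : ∑ i, ∑ x, p x * grad i g x ^ 2 = ∑ x, p x * ∑ i, u i x ^ 2 := by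
    simp only [Finset.mul_sum]
    rw [Finset.sum_comm (s := univ) (t := univ) (f := fun x i => p x * u i x ^ 2)]
    exact Finset.sum_congr rfl fun i _ => e00 i
  have h1 : ∑ x, p x * ∑ i, ∑ j, u i x * u j x * Real.exp (J i j * sg (x i) * sg (x j))
      ≤ ∑ x, p x * ∑ i, u i x ^ 2 + 3 / 4 * ∑ i, ∑ j, A i j := by
    simp only [Finset.mul_sum]
    rw [Finset.sum_comm (s := univ) (t := univ) (f := fun x i => p x * u i x ^ 2),
      Finset.sum_comm (s := univ) (t := univ)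
        (f := fun x i => ∑ j, p x * (u i x * u j x * Real.exp (J i j * sg (x i) * sg (x j)))),
      ← Finset.sum_add_distrib]
    refine Finset.sum_le_sum fun i _ => ?_
    rw [Finset.sum_comm]
    have h2 : ∀ j, ∑ x, p x * (u i x * u j x * Real.exp (J i j * sg (x i) * sg (x j)))
        ≤ (if j = i then ∑ x, p x * u i x ^ 2 else 0) + 3 / 4 * A i j := by
      intro j
      by_cases hij : j = i
      · subst hij
        have e : ∑ x, p x * (u j x * u j x * Real.exp (J j j * sg (x j) * sg (x j)))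
            = ∑ x, p x * u j x ^ 2 :=
          Finset.sum_congr rfl fun x _ => by rw [hJ.diag]; simp [sq]
        rw [e, if_pos rfl]
        have := hA0 j j
        linarith
      · rw [if_neg hij, zero_add]
        exact pair_le hJ hd hp g (Ne.symm hij) _ (hA i j (Ne.symm hij))
    refine (Finset.sum_le_sum fun j _ => h2 j).trans ?_
    rw [Finset.sum_add_distrib, Finset.sum_ite_eq']
    simp
  have h2 : ∀ x, gen J g x ^ 2
      ≤ ∑ i, ∑ j, u i x * u j x * Real.exp (J i j * sg (x i) * sg (x j))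
        + (d + d ^ 2) * ∑ i, u i x ^ 2 := by
    intro x
    have hc := corr_ge hJ hd (fun i => u i x) x
    have e : gen J g x ^ 2 = ∑ i, ∑ j, u i x * u j x := by
      rw [sq, gen, Finset.sum_mul_sum]
    have e2 : ∑ i, ∑ j, u i x * u j x * (1 - Real.exp (J i j * sg (x i) * sg (x j)))
        = ∑ i, ∑ j, u i x * u j x
          - ∑ i, ∑ j, u i x * u j x * Real.exp (J i j * sg (x i) * sg (x j)) := by
      simp only [← Finset.sum_sub_distrib]
      exact Finset.sum_congr rfl fun i _ => Finset.sum_congr rfl fun j _ => by ring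
    rw [e2] at hc
    rw [e]; linarith
  have h3 : ∑ x, p x * gen J g x ^ 2
      ≤ ∑ x, p x * ∑ i, ∑ j, u i x * u j x * Real.exp (J i j * sg (x i) * sg (x j))
        + (d + d ^ 2) * ∑ x, p x * ∑ i, u i x ^ 2 := by
    rw [Finset.mul_sum (f := fun x => p x * ∑ i, u i x ^ 2), ← Finset.sum_add_distrib]
    refine Finset.sum_le_sum fun x _ => ?_
    have := mul_le_mul_of_nonneg_left (h2 x) (hp.pos x).le
    nlinarith
  rw [e0]; linarith

/-- The variance dominates the Dirichlet form minus the square norm of the generator. -/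
lemma var_ge (hJ : Small J d) (hp : Gibbs J p) (g : (ι → Bool) → ℝ) (t : ℝ) :
    t * (∑ i, ∑ x, p x * rate J i x * grad i g x ^ 2) - t ^ 2 * ∑ x, p x * gen J g x ^ 2
      ≤ Ex p (fun x => g x ^ 2) - Ex p g ^ 2 := by
  set m := Ex p g with hm
  have hD := dirichlet hJ hp g g
  have h0 := ex_gen hJ hp g
  have e1 : ∑ i, ∑ x, p x * rate J i x * (grad i g x * grad i g x)
      = ∑ i, ∑ x, p x * rate J i x * grad i g x ^ 2 := by
    simp only [sq]
  rw [e1] at hD
  have h1 : 0 ≤ ∑ x, p x * (g x - m - t * gen J g x) ^ 2 :=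
    Finset.sum_nonneg fun x _ => mul_nonneg (hp.pos x).le (sq_nonneg _)
  have e2 : ∑ x, p x * (g x - m - t * gen J g x) ^ 2
      = ∑ x, p x * g x ^ 2 - 2 * m * ∑ x, p x * g x + m ^ 2 * ∑ x, p x
        - 2 * t * ∑ x, p x * (g x * gen J g x) + 2 * t * m * ∑ x, p x * gen J g x
        + t ^ 2 * ∑ x, p x * gen J g x ^ 2 := by
    simp only [Finset.mul_sum, ← Finset.sum_add_distrib, ← Finset.sum_sub_distrib]
    exact Finset.sum_congr rfl fun x _ => by ring
  have e3 : ∑ x, p x * g x = m := rfl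
  rw [e2, hp.sum, h0, hD, e3] at h1
  simp only [Ex]
  nlinarith

/-- A linear form. -/
def lf (b : ι → ℝ) (x : ι → Bool) : ℝ := ∑ j, b j * sg (x j)

lemma lf_fl (b : ι → ℝ) (x : ι → Bool) (i : ι) :
    lf b (fl x i) = lf b x - 2 * b i * sg (x i) := lin_fl b x i

lemma ex_lf (hp : Gibbs J p) (b : ι → ℝ) : ∑ x, p x * lf b x = 0 := by
  have h := sum_neg (fun x : ι → Bool => p x * lf b x)
  have e : ∀ x : ι → Bool, lf b (fun i => !x i) = -lf b x := by
    intro x
    simp only [lf, sg_not, mul_neg, Finset.sum_neg_distrib]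
  simp only [hp.neg, e, mul_neg, Finset.sum_neg_distrib] at h
  linarith

lemma lf_sq_le (hJ : Small J d) (hd : d ≤ 1 / 4) (hp : Gibbs J p) (b : ι → ℝ) :
    ∑ x, p x * lf b x ^ 2 ≤ 2 * ∑ i, b i ^ 2 := by
  have h := poincare hJ hd hp (lf b)
  have e : ∀ i x, dd i (lf b) x = b i := fun i x => dd_lin b x i
  simp only [Ex, e, ex_lf hp b, ← Finset.sum_mul, hp.sum, one_mul] at h
  linarith

lemma lf_mul_sq_le (hJ : Small J d) (hd : d ≤ 1 / 4) (hp : Gibbs J p) (a b : ι → ℝ) :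
    ∑ x, p x * (lf a x ^ 2 * lf b x ^ 2) ≤ 52 * (∑ i, a i ^ 2) * ∑ i, b i ^ 2 := by
  set A := ∑ i, a i ^ 2 with hA
  set B := ∑ i, b i ^ 2 with hB
  have hA0 : 0 ≤ A := Finset.sum_nonneg fun i _ => sq_nonneg _
  have hB0 : 0 ≤ B := Finset.sum_nonneg fun i _ => sq_nonneg _
  have ha := lf_sq_le hJ hd hp a
  have hb := lf_sq_le hJ hd hp b
  rw [← hA] at ha
  rw [← hB] at hb
  have h := poincare hJ hd hp (fun x => lf a x * lf b x)
  have hdd : ∀ i x, dd i (fun x => lf a x * lf b x) x ^ 2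
      ≤ 3 * (a i ^ 2 * lf b x ^ 2 + b i ^ 2 * lf a x ^ 2 + 4 * (a i ^ 2 * b i ^ 2)) := by
    intro i x
    have hs := sg_mul_self (x i)
    have e : dd i (fun x => lf a x * lf b x) x
        = a i * lf b x + b i * lf a x - 2 * a i * b i * sg (x i) := by
      simp only [dd, lf_fl]
      linear_combination (a i * lf b x + b i * lf a x - 2 * a i * b i * sg (x i)) * hs
    have e2 : (2 * a i * b i * sg (x i)) ^ 2 = 4 * (a i ^ 2 * b i ^ 2) := by
      rw [mul_pow, sg_sq]; ring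
    rw [e, ← e2]
    nlinarith [sq_nonneg (a i * lf b x - b i * lf a x),
      sq_nonneg (a i * lf b x + 2 * a i * b i * sg (x i)),
      sq_nonneg (b i * lf a x + 2 * a i * b i * sg (x i))]
  have h1 : ∀ i, Ex p (fun x => dd i (fun x => lf a x * lf b x) x ^ 2)
      ≤ 3 * (a i ^ 2 * (2 * B) + b i ^ 2 * (2 * A) + 4 * (a i ^ 2 * B)) := by
    intro i
    have h2 : Ex p (fun x => dd i (fun x => lf a x * lf b x) x ^ 2)
        ≤ ∑ x, p x * (3 * (a i ^ 2 * lf b x ^ 2 + b i ^ 2 * lf a x ^ 2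
          + 4 * (a i ^ 2 * b i ^ 2))) :=
      Finset.sum_le_sum fun x _ => mul_le_mul_of_nonneg_left (hdd i x) (hp.pos x).le
    have e : ∑ x, p x * (3 * (a i ^ 2 * lf b x ^ 2 + b i ^ 2 * lf a x ^ 2
          + 4 * (a i ^ 2 * b i ^ 2)))
        = 3 * (a i ^ 2 * ∑ x, p x * lf b x ^ 2 + b i ^ 2 * ∑ x, p x * lf a x ^ 2
          + 4 * (a i ^ 2 * b i ^ 2) * ∑ x, p x) := by
      simp only [Finset.mul_sum, ← Finset.sum_add_distrib]
      exact Finset.sum_congr rfl fun x _ => by ring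
    rw [e, hp.sum] at h2
    have h3 := mul_le_mul_of_nonneg_left hb (sq_nonneg (a i))
    have h4 := mul_le_mul_of_nonneg_left ha (sq_nonneg (b i))
    have h5 : b i ^ 2 ≤ B :=
      Finset.single_le_sum (f := fun k => b k ^ 2) (fun k _ => sq_nonneg _) (Finset.mem_univ i)
    have h6 := mul_le_mul_of_nonneg_left h5 (sq_nonneg (a i))
    linarith
  have h7 : ∑ i, Ex p (fun x => dd i (fun x => lf a x * lf b x) x ^ 2) ≤ 24 * (A * B) := by
    refine (Finset.sum_le_sum fun i _ => h1 i).trans (le_of_eq ?_)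
    simp only [← Finset.mul_sum, Finset.sum_add_distrib, ← Finset.sum_mul]
    rw [← hA, ← hB]; ring
  have h8 : Ex p (fun x => lf a x * lf b x) ^ 2
      ≤ (∑ x, p x * lf a x ^ 2) * ∑ x, p x * lf b x ^ 2 := by
    have := Finset.sum_sq_le_sum_mul_sum_of_sq_le_mul univ
      (r := fun x => p x * (lf a x * lf b x))
      (f := fun x => p x * lf a x ^ 2) (g := fun x => p x * lf b x ^ 2)
      (fun x _ => mul_nonneg (hp.pos x).le (sq_nonneg _))
      (fun x _ => mul_nonneg (hp.pos x).le (sq_nonneg _)) (fun x _ => le_of_eq (by ring))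
    exact this
  have h9 : (∑ x, p x * lf a x ^ 2) * ∑ x, p x * lf b x ^ 2 ≤ (2 * A) * (2 * B) :=
    mul_le_mul ha hb (Finset.sum_nonneg fun x _ => mul_nonneg (hp.pos x).le (sq_nonneg _))
      (by positivity)
  have e : Ex p (fun x => (lf a x * lf b x) ^ 2) = ∑ x, p x * (lf a x ^ 2 * lf b x ^ 2) :=
    Finset.sum_congr rfl fun x _ => by ring
  rw [e] at h
  nlinarith

omit [DecidableEq ι] in
lemma rate_ge (i : ι) (x : ι → Bool) : 7 / 8 - 2 * lf (J i) x ^ 2 ≤ rate J i x := by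
  have h := Real.add_one_le_exp (-(sg (x i) * hf J x i))
  have e : hf J x i = lf (J i) x := rfl
  have hs := sg_sq (x i)
  rw [rate]
  rw [e] at h ⊢
  have e2 : (sg (x i) * lf (J i) x) ^ 2 = lf (J i) x ^ 2 := by rw [mul_pow, hs, one_mul]
  nlinarith [sq_nonneg (sg (x i) * lf (J i) x - 1 / 4)]

/-- Lower bound for the second moment of a linear form. -/
lemma lf_sq_ge (hJ : Small J d) (hd : d ≤ 1 / 20) (hp : Gibbs J p) (b : ι → ℝ) :
    7 / 10 * ∑ i, b i ^ 2 ≤ ∑ x, p x * lf b x ^ 2 := by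
  have hd0 := hJ.nonneg
  set B := ∑ i, b i ^ 2 with hB
  have hB0 : 0 ≤ B := Finset.sum_nonneg fun i _ => sq_nonneg _
  have hg : ∀ i x, grad i (lf b) x = 2 * b i * sg (x i) := by
    intro i x; simp only [grad, lf_fl]; ring
  have hg2 : ∀ i x, grad i (lf b) x ^ 2 = 4 * b i ^ 2 := by
    intro i x; rw [hg, mul_pow, sg_sq]; ring
  have h1 := var_ge hJ hp (lf b) (2 / 5)
  have h2 := rev_bochner hJ (by linarith) hp (lf b) (fun _ _ => 0) (fun _ _ => le_rfl) (by
    intro i j hij x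
    have : grad j (grad i (lf b)) x = 0 := by
      rw [grad, hg, hg, fl_ne x hij]; ring
    rw [this]; norm_num)
  simp only [hg2, ← Finset.sum_mul, hp.sum, one_mul, Finset.sum_const_zero, mul_zero, add_zero,
    ← Finset.mul_sum] at h1 h2
  rw [← hB] at h2
  have h3 : ∀ i, 173 / 200 ≤ ∑ x, p x * rate J i x := by
    intro i
    have h4 : ∑ x, p x * (7 / 8 - 2 * lf (J i) x ^ 2) ≤ ∑ x, p x * rate J i x :=
      Finset.sum_le_sum fun x _ => mul_le_mul_of_nonneg_left (rate_ge i x) (hp.pos x).le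
    have e : ∑ x, p x * (7 / 8 - 2 * lf (J i) x ^ 2)
        = 7 / 8 * ∑ x, p x - 2 * ∑ x, p x * lf (J i) x ^ 2 := by
      simp only [Finset.mul_sum, ← Finset.sum_sub_distrib]
      exact Finset.sum_congr rfl fun x _ => by ring
    have h5 := lf_sq_le hJ (by linarith) hp (J i)
    have h6 := hJ.row i
    rw [e, hp.sum] at h4
    nlinarith
  have h7 : 173 / 200 * (4 * B) ≤ ∑ i, (∑ x, p x * rate J i x) * (4 * b i ^ 2) := by
    rw [hB, Finset.mul_sum, Finset.mul_sum]
    exact Finset.sum_le_sum fun i _ => mul_le_mul_of_nonneg_right (h3 i) (by positivity)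
  have h8 : (1 + d + d ^ 2) * (4 * B) ≤ 17 / 16 * (4 * B) :=
    mul_le_mul_of_nonneg_right (by nlinarith) (by positivity)
  simp only [Ex, ex_lf hp b] at h1
  nlinarith

/-- Lower bound for the variance of a quadratic form with zero diagonal. -/
theorem var_low (hJ : Small J d) (hd : d ≤ 1 / 20) (hp : Gibbs J p) (Xi : ι → ι → ℝ)
    (hs : ∀ i j, Xi i j = Xi j i) (h0 : ∀ i, Xi i i = 0) :
    (∑ i, ∑ j, Xi i j ^ 2) / 11
      ≤ Ex p (fun x => (∑ i, ∑ j, Xi i j * sg (x i) * sg (x j)) ^ 2)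
        - Ex p (fun x => ∑ i, ∑ j, Xi i j * sg (x i) * sg (x j)) ^ 2 := by
  have hd0 := hJ.nonneg
  set y : (ι → Bool) → ℝ := fun x => ∑ i, ∑ j, Xi i j * sg (x i) * sg (x j) with hy
  set N := ∑ i, ∑ j, Xi i j ^ 2 with hN
  have hN0 : 0 ≤ N := Finset.sum_nonneg fun i _ => Finset.sum_nonneg fun j _ => sq_nonneg _
  have hyl : ∀ x, y x = ∑ i, lf (Xi i) x * sg (x i) := by
    intro x
    simp only [hy, lf, Finset.sum_mul]
    exact Finset.sum_congr rfl fun i _ => Finset.sum_congr rfl fun j _ => by ring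
  have hg : ∀ i x, grad i y x = 4 * sg (x i) * lf (Xi i) x := by
    intro i x
    have e1 : y (fl x i) = ∑ k, (lf (Xi k) x - 2 * Xi k i * sg (x i)) * sg (fl x i k) := by
      rw [hyl]; simp only [lf_fl]
    have e2 := lin_fl (fun k => lf (Xi k) x - 2 * Xi k i * sg (x i)) x i
    have e3 : ∑ k, (lf (Xi k) x - 2 * Xi k i * sg (x i)) * sg (x k)
        = y x - 2 * sg (x i) * lf (Xi i) x := by
      rw [hyl, lf, Finset.mul_sum, ← Finset.sum_sub_distrib]
      exact Finset.sum_congr rfl fun k _ => by rw [hs k i]; ring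
    rw [grad, e1, e2, e3, h0]; ring
  have hg2 : ∀ i x, grad i y x ^ 2 = 16 * lf (Xi i) x ^ 2 := by
    intro i x; rw [hg, mul_pow, mul_pow, sg_sq]; ring
  have h1 := var_ge hJ hp y (1 / 30)
  have h2 := rev_bochner hJ (by linarith) hp y (fun i j => 64 * Xi i j ^ 2)
    (fun _ _ => by positivity) (by
    intro i j hij x
    have : grad j (grad i y) x = 8 * Xi i j * sg (x i) * sg (x j) := by
      rw [grad, hg, hg, fl_ne x hij, lf_fl]; ring
    rw [this, mul_pow, mul_pow, sg_sq, sg_sq]; nlinarith)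
  simp only [hg2] at h1 h2
  have e64 : ∑ i, ∑ j, 64 * Xi i j ^ 2 = 64 * N := by
    simp only [hN, Finset.mul_sum]
  rw [e64] at h2
  have h3 : ∑ i, ∑ x, p x * (16 * lf (Xi i) x ^ 2) ≤ 32 * N := by
    rw [hN, Finset.mul_sum]
    refine Finset.sum_le_sum fun i _ => ?_
    have h4 := lf_sq_le hJ (by linarith) hp (Xi i)
    have e : ∑ x, p x * (16 * lf (Xi i) x ^ 2) = 16 * ∑ x, p x * lf (Xi i) x ^ 2 := by
      rw [Finset.mul_sum]; exact Finset.sum_congr rfl fun x _ => by ring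
    rw [e]; linarith
  have h5 : 28 / 5 * N ≤ ∑ i, ∑ x, p x * rate J i x * (16 * lf (Xi i) x ^ 2) := by
    rw [hN, Finset.mul_sum]
    refine Finset.sum_le_sum fun i _ => ?_
    have h6 : ∑ x, p x * (7 / 8 - 2 * lf (J i) x ^ 2) * (16 * lf (Xi i) x ^ 2)
        ≤ ∑ x, p x * rate J i x * (16 * lf (Xi i) x ^ 2) :=
      Finset.sum_le_sum fun x _ => mul_le_mul_of_nonneg_right
        (mul_le_mul_of_nonneg_left (rate_ge i x) (hp.pos x).le) (by positivity)
    have e : ∑ x, p x * (7 / 8 - 2 * lf (J i) x ^ 2) * (16 * lf (Xi i) x ^ 2)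
        = 14 * ∑ x, p x * lf (Xi i) x ^ 2
          - 32 * ∑ x, p x * (lf (J i) x ^ 2 * lf (Xi i) x ^ 2) := by
      simp only [Finset.mul_sum, ← Finset.sum_sub_distrib]
      exact Finset.sum_congr rfl fun x _ => by ring
    have h7 := lf_sq_ge hJ hd hp (Xi i)
    have h8 := lf_mul_sq_le hJ (by linarith) hp (J i) (Xi i)
    have h9 := hJ.row i
    have hr : 0 ≤ ∑ j, Xi i j ^ 2 := Finset.sum_nonneg fun j _ => sq_nonneg _
    have h10 : 52 * (∑ j, J i j ^ 2) * ∑ j, Xi i j ^ 2 ≤ 52 * (1 / 400) * ∑ j, Xi i j ^ 2 :=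
      mul_le_mul_of_nonneg_right (by nlinarith) hr
    rw [e] at h6
    linarith
  have h11 : 0 ≤ ∑ i, ∑ x, p x * (16 * lf (Xi i) x ^ 2) :=
    Finset.sum_nonneg fun i _ => Finset.sum_nonneg fun x _ =>
      mul_nonneg (hp.pos x).le (by positivity)
  have h12 : (1 + d + d ^ 2) * ∑ i, ∑ x, p x * (16 * lf (Xi i) x ^ 2) ≤ 17 / 16 * (32 * N) :=
    mul_le_mul (by nlinarith) h3 h11 (by norm_num)
  nlinarith

end Pool.Agent.MP_9e8696_an.H90
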